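import Pool.Agent.H33.BentFinal
import Mathlib

/-!
# The number of bent functions is `2^{o(2^n)}`

`bentCount n` is the number of bent functions in `n` variables.  For every `ε > 0` and all large
even `n` it is at most `2^{ε 2^n}`, so for ALL real numbers `c` and `d` the ratio of `bentCount n`
and `2^{2^{n-c} + d binom(n, n/2)}` tends to `0` as `n` tends to infinity through even values.
-/

set_option autoImplicit false

namespace Pool.Agent.Results.MP_c42c89_co.BentCount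

open Filter Topology

/-- A Boolean function in `n` variables. -/
abbrev BoolFun (n : ℕ) : Type := (Fin n → ZMod 2) → ZMod 2

/-- The real number `(-1)^b` for `b` in the field with two elements. -/
noncomputable def sign (b : ZMod 2) : ℝ := if b = 0 then 1 else -1

/-- The Walsh-Hadamard transform `W_f(u)`, the sum over all `x` of `(-1)^(f(x) + <u,x>)`. -/
noncomputable def walsh {n : ℕ} (f : BoolFun n) (u : Fin n → ZMod 2) : ℝ :=
  ∑ x : Fin n → ZMod 2, sign (f x + ∑ i, u i * x i)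

/-- `f` is bent: `|W_f(u)| = 2^(n/2)` for every `u` (real power). -/
def IsBent {n : ℕ} (f : BoolFun n) : Prop :=
  ∀ u : Fin n → ZMod 2, |walsh f u| = (2 : ℝ) ^ ((n : ℝ) / 2)

open Classical in
/-- The number of bent functions in `n` variables. -/
noncomputable def bentCount (n : ℕ) : ℕ :=
  (Finset.univ.filter fun f : BoolFun n => IsBent f).card

theorem sign_eq (b : ZMod 2) : sign b = (((-1 : ℤ) ^ b.val : ℤ) : ℝ) := by
  unfold sign
  have h : ∀ b : ZMod 2, ((-1 : ℤ) ^ b.val : ℤ) = if b = 0 then 1 else -1 := by decide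
  rw [h b]
  split_ifs <;> simp

theorem isBent_iff {k : ℕ} (f : BoolFun (2 * k)) :
    IsBent f ↔ ∀ a : Fin (2 * k) → ZMod 2,
      (∑ x : Fin (2 * k) → ZMod 2,
        (-1 : ℤ) ^ (f x + ∑ i, a i * x i).val) ^ 2 = 2 ^ (2 * k) := by
  unfold IsBent
  refine forall_congr' fun a => ?_
  have h1 : walsh f a = ((∑ x : Fin (2 * k) → ZMod 2,
        (-1 : ℤ) ^ (f x + ∑ i, a i * x i).val : ℤ) : ℝ) := by
    unfold walsh
    rw [Int.cast_sum]
    exact Finset.sum_congr rfl fun x _ => sign_eq _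
  have h2 : (2 : ℝ) ^ (((2 * k : ℕ) : ℝ) / 2) = 2 ^ k := by
    rw [Nat.cast_mul, Nat.cast_ofNat, mul_div_cancel_left₀ _ (two_ne_zero), Real.rpow_natCast]
  rw [h1, h2]
  generalize (∑ x : Fin (2 * k) → ZMod 2, (-1 : ℤ) ^ (f x + ∑ i, a i * x i).val : ℤ) = W
  have h3 : |(W : ℝ)| = 2 ^ k ↔ (W : ℝ) ^ 2 = 2 ^ (2 * k) := by
    rw [mul_comm 2 k, pow_mul, sq_eq_sq_iff_abs_eq_abs, abs_of_pos (show (0 : ℝ) < 2 ^ k by positivity)]
  rw [h3]
  constructor
  · intro h; exact_mod_cast h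
  · intro h; exact_mod_cast h

theorem bentCount_eq (k : ℕ) : bentCount (2 * k) =
    Nat.card {f : (Fin (2 * k) → ZMod 2) → ZMod 2 //
      ∀ a : Fin (2 * k) → ZMod 2,
        (∑ x : Fin (2 * k) → ZMod 2,
          (-1 : ℤ) ^ (f x + ∑ i, a i * x i).val) ^ 2 = 2 ^ (2 * k)} := by
  classical
  rw [Nat.card_eq_fintype_card, Fintype.card_subtype]
  unfold bentCount
  congr 1
  ext f
  simp only [Finset.mem_filter, Finset.mem_univ, true_and]
  exact isBent_iff f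

theorem bentCount_le {ε : ℝ} (hε : 0 < ε) : ∃ K : ℕ, ∀ k ≥ K,
    (bentCount (2 * k) : ℝ) ≤ Real.exp (ε * 4 ^ k) := by
  obtain ⟨K, hK⟩ := Pool.Agent.H33.Bent.card_bent_le hε
  refine ⟨K, fun k hk => ?_⟩
  rw [bentCount_eq]
  exact hK k hk

theorem ratio_tendsto (c d : ℝ) :
    Tendsto (fun k : ℕ => (bentCount (2 * k) : ℝ) /
      (2 : ℝ) ^ ((2 : ℝ) ^ (((2 * k : ℕ) : ℝ) - c) + d * ((Nat.choose (2 * k) k : ℕ) : ℝ)))
      atTop (𝓝 0) := by
  set δ : ℝ := (2 : ℝ) ^ (-c) with hδ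
  have hδ0 : 0 < δ := Real.rpow_pos_of_pos (by norm_num) _
  obtain ⟨K, hK⟩ := bentCount_le (ε := δ / 16) (by positivity)
  have h2 : ∀ᶠ k : ℕ in atTop, |d| * (((Nat.choose (2 * k) k : ℕ) : ℝ) / 4 ^ k) ≤ δ / 2 := by
    have h3 := Pool.Agent.H33.Bent.tendsto_centralBinom.const_mul |d|
    rw [mul_zero] at h3
    exact h3.eventually (ge_mem_nhds (show (0:ℝ) < δ / 2 by positivity))
  have hlim : Tendsto (fun k : ℕ => Real.exp (-(δ / 8 * 4 ^ k))) atTop (𝓝 0) := by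
    refine Real.tendsto_exp_neg_atTop_nhds_zero.comp ?_
    exact (tendsto_pow_atTop_atTop_of_one_lt (by norm_num : (1 : ℝ) < 4)).const_mul_atTop
      (by positivity)
  refine squeeze_zero' (Eventually.of_forall fun k => by positivity) ?_ hlim
  filter_upwards [h2, eventually_ge_atTop K] with k hk2 hkK
  have h4k : (0:ℝ) < 4 ^ k := by positivity
  have hup := hK k hkK
  have h8 : (2 : ℝ) ^ (((2 * k : ℕ) : ℝ) - c) = δ * 4 ^ k := by
    rw [sub_eq_add_neg, Real.rpow_add (by norm_num), Real.rpow_natCast, pow_mul, ← hδ, mul_comm]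
    norm_num
  have h10 : -(δ / 2 * 4 ^ k) ≤ d * ((Nat.choose (2 * k) k : ℕ) : ℝ) := by
    have h11 : |d * ((Nat.choose (2 * k) k : ℕ) : ℝ)| ≤ δ / 2 * 4 ^ k := by
      rw [abs_mul, abs_of_nonneg (show (0:ℝ) ≤ ((Nat.choose (2 * k) k : ℕ) : ℝ) by positivity)]
      have h12 : |d| * ((Nat.choose (2 * k) k : ℕ) : ℝ) =
          |d| * (((Nat.choose (2 * k) k : ℕ) : ℝ) / 4 ^ k) * 4 ^ k := by
        field_simp
      rw [h12]
      exact mul_le_mul_of_nonneg_right hk2 h4k.le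
    exact (abs_le.1 h11).1
  have hE : δ / 2 * 4 ^ k ≤ (2 : ℝ) ^ (((2 * k : ℕ) : ℝ) - c) +
      d * ((Nat.choose (2 * k) k : ℕ) : ℝ) := by
    rw [h8]; linarith
  have h13 : Real.exp (δ / 4 * 4 ^ k) ≤ (2 : ℝ) ^ ((2 : ℝ) ^ (((2 * k : ℕ) : ℝ) - c) +
      d * ((Nat.choose (2 * k) k : ℕ) : ℝ)) := by
    rw [Real.rpow_def_of_pos (by norm_num)]
    apply Real.exp_le_exp.2
    have h15 := Real.log_two_gt_d9
    calc δ / 4 * 4 ^ k = (1 / 2) * (δ / 2 * 4 ^ k) := by ring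
      _ ≤ Real.log 2 * (δ / 2 * 4 ^ k) := by
          apply mul_le_mul_of_nonneg_right _ (by positivity)
          linarith
      _ ≤ _ := mul_le_mul_of_nonneg_left hE (by linarith)
  rw [div_le_iff₀ (Real.rpow_pos_of_pos (by norm_num) _)]
  calc (bentCount (2 * k) : ℝ) ≤ Real.exp (δ / 16 * 4 ^ k) := hup
    _ ≤ Real.exp (-(δ / 8 * 4 ^ k)) * Real.exp (δ / 4 * 4 ^ k) := by
        rw [← Real.exp_add]
        apply Real.exp_le_exp.2
        have : 0 < δ * 4 ^ k := by positivity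
        nlinarith
    _ ≤ _ := mul_le_mul_of_nonneg_left h13 (Real.exp_pos _).le

/-- A filter fact: limits along even numbers. -/
theorem tendsto_even {g : ℕ → ℝ} {l : ℝ} (h : Tendsto (fun k => g (2 * k)) atTop (𝓝 l)) :
    Tendsto g (atTop ⊓ 𝓟 {n | Even n}) (𝓝 l) := by
  rw [tendsto_nhds]
  intro s hs hl
  have h1 := (tendsto_nhds.1 h) s hs hl
  obtain ⟨K, hK⟩ := eventually_atTop.1 (show ∀ᶠ k in atTop, g (2 * k) ∈ s from h1)
  rw [Filter.mem_inf_principal]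
  refine mem_atTop_sets.2 ⟨2 * K, fun n hn hev => ?_⟩
  obtain ⟨m, rfl⟩ := hev
  have := hK m (by omega)
  rw [two_mul] at this
  exact this

/-- The number of bent functions in `n` variables (`n` even) is `2^{o(2^n)}`, and for all real
`c` and `d` the ratio of it and `2^{2^{n-c} + d binom(n, n/2)}` tends to `0` as `n` tends to infinity
through even values; so it never tends to `1`. -/
theorem result :
    (∀ ε : ℝ, 0 < ε → ∃ N : ℕ, ∀ n : ℕ, N ≤ n → Even n →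
      (bentCount n : ℝ) ≤ (2 : ℝ) ^ (ε * 2 ^ n)) ∧
    (∀ c d : ℝ, Tendsto (fun n : ℕ => (bentCount n : ℝ) /
        (2 : ℝ) ^ ((2 : ℝ) ^ ((n : ℝ) - c) + d * ((Nat.choose n (n / 2) : ℕ) : ℝ)))
      (atTop ⊓ 𝓟 {n | Even n}) (𝓝 0)) ∧
    ¬ ∃ c d : ℝ, 1 ≤ c ∧ c ≤ 2 ∧ Tendsto (fun n : ℕ => (bentCount n : ℝ) /
        (2 : ℝ) ^ ((2 : ℝ) ^ ((n : ℝ) - c) + d * ((Nat.choose n (n / 2) : ℕ) : ℝ)))
      (atTop ⊓ 𝓟 {n | Even n}) (𝓝 1) := by
  have hB : ∀ c d : ℝ, Tendsto (fun n : ℕ => (bentCount n : ℝ) /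
        (2 : ℝ) ^ ((2 : ℝ) ^ ((n : ℝ) - c) + d * ((Nat.choose n (n / 2) : ℕ) : ℝ)))
      (atTop ⊓ 𝓟 {n | Even n}) (𝓝 0) := by
    intro c d
    apply tendsto_even
    have h := ratio_tendsto c d
    refine h.congr fun k => ?_
    have e : 2 * k / 2 = k := by omega
    rw [e]
  refine ⟨?_, hB, ?_⟩
  · intro ε hε
    have hl : 0 < Real.log 2 := Real.log_pos (by norm_num)
    obtain ⟨K, hK⟩ := bentCount_le (ε := ε * Real.log 2) (by positivity)
    refine ⟨2 * K, fun n hn hev => ?_⟩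
    obtain ⟨m, rfl⟩ := hev
    have h := hK m (by omega)
    rw [← two_mul, Real.rpow_def_of_pos (by norm_num)]
    have e : (2 : ℝ) ^ (2 * m) = 4 ^ m := by rw [pow_mul]; norm_num
    rw [e]
    refine h.trans (Real.exp_le_exp.2 (le_of_eq (by ring)))
  · rintro ⟨c, d, -, -, h⟩
    have hne : (atTop ⊓ 𝓟 {n : ℕ | Even n}).NeBot := by
      rw [Filter.inf_principal_neBot_iff]
      intro U hU
      obtain ⟨N, hN⟩ := mem_atTop_sets.1 hU
      exact ⟨2 * N, hN _ (by omega), ⟨N, by ring⟩⟩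
    exact zero_ne_one (tendsto_nhds_unique (hB c d) h)

end Pool.Agent.Results.MP_c42c89_co.BentCount
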